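import Pool.Agent.Q240.CD.Stm

/-!
# Project CD: Con1 and Con2 (Taylor polynomials of sinc in Gaussian weights)
-/

set_option autoImplicit false

namespace Pool.Agent.Q277.CD

open Polynomial Filter Topology Finset MeasureTheory
open Pool.Agent.Q240.CD

/-- the weight -/
noncomputable def w (c x : ℝ) : ℝ := Real.exp (-(2 * c * x ^ 2))

/-- Taylor polynomials of `sinc (b (x - t))` -/
noncomputable def Rk (b t : ℝ) (K : ℕ) : ℝ[X] :=
  ∑ k ∈ range K, C ((-1 : ℝ) ^ k / ((2 * k + 1).factorial : ℝ)) * (C b * (X - C t)) ^ (2 * k)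

theorem Rk_eval (b t x : ℝ) (K : ℕ) : (Rk b t K).eval x =
    ∑ k ∈ range K, (-1 : ℝ) ^ k / ((2 * k + 1).factorial : ℝ) * (b * (x - t)) ^ (2 * k) := by
  simp [Rk, eval_finsetSum]

theorem Rk_self (b t : ℝ) (K : ℕ) (hK : 1 ≤ K) : (Rk b t K).eval t = 1 := by
  rw [Rk_eval, ← Nat.sub_add_cancel hK, sum_range_succ']
  simp

theorem Rk_le (b t x : ℝ) (K : ℕ) : |(Rk b t K).eval x| ≤ Real.exp |b * (x - t)| := by
  rw [Rk_eval]
  refine (abs_sum_le_sum_abs _ _).trans ?_
  have h1 : ∀ k ∈ range K, |(-1 : ℝ) ^ k / ((2 * k + 1).factorial : ℝ) * (b * (x - t)) ^ (2 * k)| ≤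
      (b * (x - t)) ^ (2 * k) / ((2 * k).factorial : ℝ) := by
    intro k _
    rw [abs_mul, abs_div, abs_pow, abs_neg, abs_one, one_pow,
      abs_of_nonneg (Even.pow_nonneg (even_two_mul k) (b * (x - t))),
      abs_of_nonneg (Nat.cast_nonneg _), div_mul_eq_mul_div, one_mul]
    apply div_le_div_of_nonneg_left (Even.pow_nonneg (even_two_mul k) _)
    · exact_mod_cast Nat.factorial_pos _
    · exact_mod_cast Nat.factorial_le (Nat.le_succ _)
  refine (sum_le_sum h1).trans ?_
  have h2 := sum_le_hasSum (range K) (fun k _ => div_nonneg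
    (Even.pow_nonneg (even_two_mul k) (b * (x - t))) (Nat.cast_nonneg _)) (Real.hasSum_cosh (b * (x - t)))
  refine h2.trans ?_
  rw [← Real.cosh_abs, Real.cosh_eq]
  have h3 : Real.exp (-|b * (x - t)|) ≤ Real.exp |b * (x - t)| :=
    Real.exp_le_exp.2 (by linarith [abs_nonneg (b * (x - t))])
  linarith

theorem Rk_lim (b t x : ℝ) :
    Tendsto (fun K => (Rk b t K).eval x) atTop (𝓝 (Real.sinc (b * (x - t)))) := by
  simp only [Rk_eval]
  set u := b * (x - t) with hu
  apply HasSum.tendsto_sum_nat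
  rcases eq_or_ne u 0 with h | h
  · rw [h, Real.sinc_zero]
    have := hasSum_ite_eq (0 : ℕ) (1 : ℝ)
    convert this using 1
    funext k
    rcases Nat.eq_zero_or_pos k with rfl | hk
    · simp
    · have h1 : 2 * k ≠ 0 := by omega
      rw [zero_pow h1, mul_zero, if_neg hk.ne']
  · rw [Real.sinc_of_ne_zero h]
    have h3 := (Real.hasSum_sin u).mul_right u⁻¹
    rw [← div_eq_mul_inv] at h3
    have h4 : (fun k : ℕ => (-1 : ℝ) ^ k / ((2 * k + 1).factorial : ℝ) * u ^ (2 * k)) =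
        fun k => (-1 : ℝ) ^ k * u ^ (2 * k + 1) / ((2 * k + 1).factorial : ℝ) * u⁻¹ := by
      funext k
      rw [pow_succ]
      field_simp
    rw [h4]
    exact h3

/-- the dominating function -/
theorem dom (c b t : ℝ) (hc : 0 < c) : ∃ D : ℝ, ∀ x : ℝ,
    Real.exp |b * (x - t)| ^ 2 * (1 + (x - t) ^ 2) * w c x ≤ D * Real.exp (-(c / 2) * x ^ 2) := by
  set B := |b| + 1 with hB
  have hB0 : 0 < B := by positivity
  refine ⟨Real.exp (2 * B ^ 2 / (3 * c) + 2 * B * |t|), fun x => ?_⟩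
  have h1 : 1 + (x - t) ^ 2 ≤ Real.exp (2 * |x - t|) := by
    have h := Real.quadratic_le_exp_of_nonneg (x := 2 * |x - t|) (by positivity)
    have h2 : |x - t| ^ 2 = (x - t) ^ 2 := sq_abs _
    nlinarith [abs_nonneg (x - t)]
  have h2 : Real.exp |b * (x - t)| ^ 2 * (1 + (x - t) ^ 2) ≤ Real.exp (2 * B * |x - t|) := by
    have : Real.exp (2 * B * |x - t|) = Real.exp |b * (x - t)| ^ 2 * Real.exp (2 * |x - t|) := by
      rw [← Real.exp_nat_mul, ← Real.exp_add, abs_mul, hB]
      congr 1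
      push_cast
      ring
    rw [this]
    exact mul_le_mul_of_nonneg_left h1 (by positivity)
  refine (mul_le_mul_of_nonneg_right h2 (Real.exp_pos _).le).trans ?_
  change _ * Real.exp (-(2 * c * x ^ 2)) ≤ _
  rw [← Real.exp_add, ← Real.exp_add, Real.exp_le_exp]
  have h3 : |x - t| ≤ |x| + |t| := abs_sub x t
  have h4 : 2 * B * |x| ≤ 3 * c / 2 * x ^ 2 + 2 * B ^ 2 / (3 * c) := by
    have h5 : x ^ 2 = |x| ^ 2 := (sq_abs x).symm
    rw [h5]
    have h6 : 0 ≤ (3 * c / 2 * |x| - B) ^ 2 * (2 / (3 * c)) := by positivity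
    have h7 : (3 * c / 2 * |x| - B) ^ 2 * (2 / (3 * c)) =
        3 * c / 2 * |x| ^ 2 + 2 * B ^ 2 / (3 * c) - 2 * B * |x| := by
      field_simp
      ring
    linarith
  have h8 : 2 * B * |x - t| ≤ 2 * B * |x| + 2 * B * |t| := by nlinarith
  linarith

theorem w_pos (c x : ℝ) : 0 < w c x := Real.exp_pos _

theorem w_cont (c : ℝ) : Continuous (w c) := by unfold w; fun_prop

theorem w_int (c : ℝ) (hc : 0 < c) : Integrable (w c) := by
  have := integrable_exp_neg_mul_sq (b := 2 * c) (by positivity)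
  convert this using 2
  unfold w
  congr 1
  ring

theorem Rk_cont (b t : ℝ) (K : ℕ) : Continuous (fun x => (Rk b t K).eval x) :=
  (Rk b t K).continuous

/-- convergence of the norms -/
theorem lim1 (c b t : ℝ) (hc : 0 < c) :
    Tendsto (fun K => ∫ x : ℝ, (Rk b t K).eval x ^ 2 * w c x) atTop
      (𝓝 (∫ x : ℝ, Real.sinc (b * (x - t)) ^ 2 * w c x)) := by
  obtain ⟨D, hD⟩ := dom c b t hc
  apply tendsto_integral_of_dominated_convergence (fun x => D * Real.exp (-(c / 2) * x ^ 2))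
  · exact fun K => (((Rk_cont b t K).pow 2).mul (w_cont c)).aestronglyMeasurable
  · exact (integrable_exp_neg_mul_sq (by positivity)).const_mul D
  · intro K
    refine Eventually.of_forall fun x => ?_
    rw [Real.norm_of_nonneg (mul_nonneg (sq_nonneg _) (w_pos c x).le)]
    refine le_trans ?_ (hD x)
    apply mul_le_mul_of_nonneg_right _ (w_pos c x).le
    have h1 : (Rk b t K).eval x ^ 2 ≤ Real.exp |b * (x - t)| ^ 2 := by
      rw [← sq_abs]
      exact pow_le_pow_left₀ (abs_nonneg _) (Rk_le b t x K) 2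
    have h2 := sq_nonneg (x - t)
    have h3 : 0 < Real.exp |b * (x - t)| ^ 2 := by positivity
    nlinarith
  · exact Eventually.of_forall fun x => ((Rk_lim b t x).pow 2).mul_const _

/-- convergence of the second moments -/
theorem lim2 (c b t : ℝ) (hc : 0 < c) :
    Tendsto (fun K => ∫ x : ℝ, ((Rk b t K).eval x * (x - t)) ^ 2 * w c x) atTop
      (𝓝 (∫ x : ℝ, (Real.sinc (b * (x - t)) * (x - t)) ^ 2 * w c x)) := by
  obtain ⟨D, hD⟩ := dom c b t hc
  apply tendsto_integral_of_dominated_convergence (fun x => D * Real.exp (-(c / 2) * x ^ 2))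
  · exact fun K => ((((Rk_cont b t K).mul (continuous_id.sub continuous_const)).pow 2).mul
      (w_cont c)).aestronglyMeasurable
  · exact (integrable_exp_neg_mul_sq (by positivity)).const_mul D
  · intro K
    refine Eventually.of_forall fun x => ?_
    rw [Real.norm_of_nonneg (mul_nonneg (sq_nonneg _) (w_pos c x).le)]
    refine le_trans ?_ (hD x)
    apply mul_le_mul_of_nonneg_right _ (w_pos c x).le
    have h1 : (Rk b t K).eval x ^ 2 ≤ Real.exp |b * (x - t)| ^ 2 := by
      rw [← sq_abs]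
      exact pow_le_pow_left₀ (abs_nonneg _) (Rk_le b t x K) 2
    have h2 := sq_nonneg (x - t)
    have h3 : 0 < Real.exp |b * (x - t)| ^ 2 := by positivity
    rw [mul_pow]
    nlinarith
  · exact Eventually.of_forall fun x => (((Rk_lim b t x).mul_const _).pow 2).mul_const _

theorem sinc_mul (u : ℝ) : (Real.sinc u * u) ^ 2 ≤ 1 := by
  rcases eq_or_ne u 0 with rfl | h
  · simp
  · rw [Real.sinc_of_ne_zero h, div_mul_cancel₀ _ h]
    exact Real.sin_sq_le_one u

theorem sinc_sq (u : ℝ) : Real.sinc u ^ 2 ≤ 1 := by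
  rw [← sq_abs]
  exact pow_le_one₀ (abs_nonneg _) (Real.abs_sinc_le_one u)

/-- the norms tend to zero -/
theorem lim3 (c t : ℝ) (hc : 0 < c) :
    Tendsto (fun b : ℕ => ∫ x : ℝ, Real.sinc ((b : ℝ) * (x - t)) ^ 2 * w c x) atTop (𝓝 0) := by
  have h0 : (∫ x : ℝ, (0 : ℝ)) = 0 := by simp
  rw [← h0]
  apply tendsto_integral_of_dominated_convergence (w c)
  · intro b
    exact (((Real.continuous_sinc.comp (by fun_prop : Continuous fun x : ℝ => (b : ℝ) * (x - t))).pow 2).mul
      (w_cont c)).aestronglyMeasurable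
  · exact w_int c hc
  · intro b
    refine Eventually.of_forall fun x => ?_
    rw [Real.norm_of_nonneg (mul_nonneg (sq_nonneg _) (w_pos c x).le)]
    have := sinc_sq ((b : ℝ) * (x - t))
    nlinarith [w_pos c x]
  · have h1 : ∀ᵐ x : ℝ, x ≠ t := by
      rw [ae_iff]
      simp
    filter_upwards [h1] with x hx
    have hx' : 0 < (x - t) ^ 2 := by
      have : x - t ≠ 0 := sub_ne_zero.2 hx
      positivity
    have h2 : Tendsto (fun b : ℕ => w c x / (x - t) ^ 2 * ((1 : ℝ) / b) ^ 2) atTop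
        (𝓝 (w c x / (x - t) ^ 2 * 0 ^ 2)) :=
      (tendsto_one_div_atTop_nhds_zero_nat.pow 2).const_mul _
    simp only [ne_eq, OfNat.ofNat_ne_zero, not_false_eq_true, zero_pow, mul_zero] at h2
    refine squeeze_zero' (Eventually.of_forall fun b => mul_nonneg (sq_nonneg _) (w_pos c x).le) ?_ h2
    filter_upwards [eventually_gt_atTop 0] with b hb
    have hb' : (0 : ℝ) < b := by exact_mod_cast hb
    have h3 := sinc_mul ((b : ℝ) * (x - t))
    rw [mul_pow, mul_pow] at h3
    have h4 : Real.sinc ((b : ℝ) * (x - t)) ^ 2 ≤ 1 / ((b : ℝ) ^ 2 * (x - t) ^ 2) := by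
      rw [le_div_iff₀ (by positivity)]
      exact h3
    calc Real.sinc ((b : ℝ) * (x - t)) ^ 2 * w c x ≤ 1 / ((b : ℝ) ^ 2 * (x - t) ^ 2) * w c x :=
          mul_le_mul_of_nonneg_right h4 (w_pos c x).le
      _ = w c x / (x - t) ^ 2 * ((1 : ℝ) / b) ^ 2 := by field_simp

/-- **Con1** -/
theorem con1 : S_Con1 := by
  intro c hc t ε hε
  obtain ⟨b, hb⟩ := ((lim3 c t hc).eventually_lt_const hε).exists
  obtain ⟨K, hK, hK1⟩ := (((lim1 c b t hc).eventually_lt_const hb).and (eventually_ge_atTop 1)).exists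
  exact ⟨Rk b t K, Rk_self b t K hK1, hK.le⟩

theorem int1 (c b t : ℝ) (hc : 0 < c) :
    Integrable fun x : ℝ => Real.sinc (b * (x - t)) ^ 2 * w c x := by
  refine (w_int c hc).mono' ?_ ?_
  · exact (((Real.continuous_sinc.comp (by fun_prop : Continuous fun x : ℝ => b * (x - t))).pow 2).mul
      (w_cont c)).aestronglyMeasurable
  · refine Eventually.of_forall fun x => ?_
    rw [Real.norm_of_nonneg (mul_nonneg (sq_nonneg _) (w_pos c x).le)]
    have := sinc_sq (b * (x - t))
    nlinarith [w_pos c x]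

/-- lower bound for the norm of the kernel -/
theorem low (c t : ℝ) (hc : 0 < c) : ∃ m : ℝ, 0 < m ∧ ∀ b : ℕ, 0 < b →
    m / b ≤ ∫ x : ℝ, Real.sinc ((b : ℝ) * (x - t)) ^ 2 * w c x := by
  refine ⟨9 / 16 * Real.exp (-(2 * c * (|t| + 1) ^ 2)), by positivity, fun b hb => ?_⟩
  have hb' : (1 : ℝ) ≤ b := by exact_mod_cast hb
  have hb0 : (0 : ℝ) < b := by linarith
  have h1 : ∫ x in Set.Ioc t (t + 1 / b), (9 / 16 * Real.exp (-(2 * c * (|t| + 1) ^ 2))) ≤
      ∫ x in Set.Ioc t (t + 1 / b), Real.sinc ((b : ℝ) * (x - t)) ^ 2 * w c x := by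
    apply setIntegral_mono_on
    · exact integrableOn_const (by simp)
    · exact (int1 c b t hc).integrableOn
    · exact measurableSet_Ioc
    · rintro x ⟨hx1, hx2⟩
      set u := (b : ℝ) * (x - t) with hu
      have hu0 : 0 < u := mul_pos hb0 (by linarith)
      have hu1 : u ≤ 1 := by
        have : x - t ≤ 1 / b := by linarith
        calc u ≤ b * (1 / b) := mul_le_mul_of_nonneg_left this hb0.le
          _ = 1 := by field_simp
      have h2 : 3 / 4 ≤ Real.sinc u := by
        rw [Real.sinc_of_ne_zero hu0.ne', le_div_iff₀ hu0]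
        have h3 := Real.sin_gt_sub_cube hu0
        have h4 : u ^ 3 ≤ u := by
          have : u ^ 2 ≤ 1 := by nlinarith
          nlinarith
        linarith
      have h5 : 9 / 16 ≤ Real.sinc u ^ 2 := by nlinarith
      have h6 : Real.exp (-(2 * c * (|t| + 1) ^ 2)) ≤ w c x := by
        apply Real.exp_le_exp.2
        have h7 : |x| ≤ |t| + 1 := by
          have h8 : |x - t| ≤ 1 := by
            rw [abs_of_nonneg (by linarith)]
            have : 1 / (b : ℝ) ≤ 1 := by
              rw [div_le_one hb0]; exact hb'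
            linarith
          have := abs_sub_abs_le_abs_sub x t
          linarith
        have h9 : x ^ 2 ≤ (|t| + 1) ^ 2 := by
          rw [← sq_abs x]
          exact pow_le_pow_left₀ (abs_nonneg x) h7 2
        nlinarith
      exact mul_le_mul h5 h6 (Real.exp_pos _).le (sq_nonneg _)
  have h2 : ∫ x in Set.Ioc t (t + 1 / b), (9 / 16 * Real.exp (-(2 * c * (|t| + 1) ^ 2))) =
      (9 / 16 * Real.exp (-(2 * c * (|t| + 1) ^ 2))) / b := by
    rw [setIntegral_const]
    simp only [Measure.real, Real.volume_Ioc, smul_eq_mul]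
    rw [ENNReal.toReal_ofReal (by simp)]
    ring
  rw [← h2]
  refine h1.trans ?_
  apply setIntegral_le_integral (int1 c b t hc)
  exact Eventually.of_forall fun x => mul_nonneg (sq_nonneg _) (w_pos c x).le

/-- upper bound for the second moment -/
theorem up (c t : ℝ) (hc : 0 < c) (b : ℕ) (hb : 0 < b) :
    ∫ x : ℝ, (Real.sinc ((b : ℝ) * (x - t)) * (x - t)) ^ 2 * w c x ≤
      (∫ x : ℝ, w c x) / (b : ℝ) ^ 2 := by
  have hb0 : (0 : ℝ) < b := by exact_mod_cast hb
  rw [div_eq_mul_inv, ← integral_mul_const]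
  apply integral_mono_of_nonneg
  · exact Eventually.of_forall fun x => mul_nonneg (sq_nonneg _) (w_pos c x).le
  · exact (w_int c hc).mul_const _
  · refine Eventually.of_forall fun x => ?_
    have h := sinc_mul ((b : ℝ) * (x - t))
    have h1 : (Real.sinc ((b : ℝ) * (x - t)) * (x - t)) ^ 2 ≤ ((b : ℝ) ^ 2)⁻¹ := by
      rw [← one_div, le_div_iff₀ (by positivity)]
      calc (Real.sinc ((b : ℝ) * (x - t)) * (x - t)) ^ 2 * (b : ℝ) ^ 2 =
          (Real.sinc ((b : ℝ) * (x - t)) * ((b : ℝ) * (x - t))) ^ 2 := by ring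
        _ ≤ 1 := h
    change _ * w c x ≤ w c x * _
    rw [mul_comm (w c x)]
    exact mul_le_mul_of_nonneg_right h1 (w_pos c x).le

/-- **Con2** -/
theorem con2 : S_Con2 := by
  intro c hc t r hr
  obtain ⟨m, hm, hlow⟩ := low c t hc
  have hW : 0 ≤ ∫ x : ℝ, w c x := integral_nonneg fun x => (w_pos c x).le
  obtain ⟨b, hb⟩ := exists_nat_gt ((∫ x : ℝ, w c x) / (r ^ 2 / 2 * m))
  have hb0 : (0 : ℝ) < b := lt_of_le_of_lt (by positivity) hb
  have hb1 : 0 < b := by exact_mod_cast hb0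
  have h1 := hlow b hb1
  have h2 := up c t hc b hb1
  have h3 : ∫ x : ℝ, (Real.sinc ((b : ℝ) * (x - t)) * (x - t)) ^ 2 * w c x <
      r ^ 2 / 2 * ∫ x : ℝ, Real.sinc ((b : ℝ) * (x - t)) ^ 2 * w c x := by
    refine lt_of_le_of_lt h2 (lt_of_lt_of_le ?_ (mul_le_mul_of_nonneg_left h1 (by positivity)))
    rw [div_lt_iff₀ (by positivity)] at hb
    rw [div_lt_iff₀ (by positivity)]
    calc (∫ x : ℝ, w c x) < b * (r ^ 2 / 2 * m) := hb
      _ = r ^ 2 / 2 * (m / b) * (b : ℝ) ^ 2 := by field_simp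
  have h4 : 0 < ∫ x : ℝ, Real.sinc ((b : ℝ) * (x - t)) ^ 2 * w c x :=
    lt_of_lt_of_le (by positivity) h1
  have e1 := (lim2 c b t hc).eventually_lt ((lim1 c b t hc).const_mul (r ^ 2 / 2)) h3
  have e2 := (lim1 c b t hc).eventually_const_lt h4
  obtain ⟨K, hK1, hK2⟩ := (e1.and e2).exists
  exact ⟨Rk b t K, hK2, hK1.le⟩

end Pool.Agent.Q277.CD
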